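import Pool.Agent.H37.Io3

set_option autoImplicit false

open Pool.Agent.H37.IoD

theorem Pool.Agent.Results.MP_2c929a_lc.Yes.result :
    ∃ f : ℕ → ℕ, Computable f ∧ (∀ a : ℕ, ∀ᶠ n in Filter.atTop, 2 ^ a ^ n < f n) ∧
      Much (IOE fun n => 2 ^ 2 ^ n) (IOE f) ∧ Much (IOE f) (IOE fun n => 2 ^ 2 ^ n) :=
  exists_f
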